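import Mathlib
import Pool.Agent.Helper337.Billaud.Units
import Pool.Agent.Helper337.Billaud.Heirs

/-!
# Billaud's conjecture for words with atomic letter frequencies

Partial result on `MP_c026f4_lc` (Q1).  The hypotheses and the conclusion are those of Billaud's
conjecture (frozen statement `S09687`), with one additional hypothesis on the word: no letter
frequency is a sum of two or more letter frequencies, or every letter occurs at most three times.
-/

set_option autoImplicit false

namespace Pool.Agent.Results.MP_c026f4_lc.AtomicFrequencies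

open Billaud337

theorem aux (α : List ℕ) (hne : α ≠ [])
    (hc : ∀ b ∈ α, ∀ s : List ℕ, (∀ a ∈ s, a ∈ α) →
      (s.map α.count).sum = α.count b → s.length ≤ 1)
    (hprim : ¬ ∃ σ : ℕ → List ℕ, α.flatMap σ = α ∧ ∃ x ∈ α, σ x ≠ [x]) :
    ∃ i ∈ α, ¬ ∃ σ : ℕ → List ℕ,
        (α.filter (fun y => decide (y ≠ i))).flatMap σ = α.filter (fun y => decide (y ≠ i)) ∧
        ∃ x ∈ α.filter (fun y => decide (y ≠ i)), σ x ≠ [x] := by
  by_contra hcon
  push Not at hcon
  have hU : ∀ x ∈ α, ∃ y z, IsUnit' (del x α) y z := by
    intro x hx
    refine exists_unit (v := del x α) ?_ (hcon x hx)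
    have e : ∀ c, c ≠ x → (del x α).count c = α.count c := by
      intro c hcx
      unfold del
      rw [List.count_filter]
      simpa using hcx
    intro b hb s hs hsum
    obtain ⟨hb1, hb2⟩ := mem_del.1 hb
    refine hc b hb1 s (fun a ha => (mem_del.1 (hs a ha)).1) ?_
    rw [← e b hb2, ← hsum]
    congr 1
    exact List.map_congr_left (fun a ha => (e a (mem_del.1 (hs a ha)).2).symm)
  obtain ⟨y, z, h⟩ := exists_unit_of_heirs hne hU
  exact hprim h.imprim

/-- In a morphically primitive word with at least two letters every letter occurs at least twice. -/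
theorem two_le_count (α : List ℕ) (h2 : 2 ≤ α.toFinset.card)
    (hprim : ¬ ∃ σ : ℕ → List ℕ, α.flatMap σ = α ∧ ∃ x ∈ α, σ x ≠ [x]) :
    ∀ a ∈ α, 2 ≤ α.count a := by
  intro a ha
  by_contra hcon
  have hpos : 0 < α.count a := List.count_pos_iff.2 ha
  have h1 : α.count a = 1 := by omega
  apply hprim
  have hz : ∀ (β r : List ℕ), a ∉ r → r.flatMap (fun c => if c = a then β else []) = [] := by
    intro β r hr
    rw [List.flatMap_eq_nil_iff]
    intro c hc
    rw [if_neg]
    rintro rfl
    exact hr hc
  obtain ⟨p, q, hpq⟩ := List.append_of_mem ha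
  have hcp : a ∉ p ∧ a ∉ q := by
    rw [hpq, List.count_append, List.count_cons_self] at h1
    constructor
    · intro h
      have := List.count_pos_iff.2 h
      omega
    · intro h
      have := List.count_pos_iff.2 h
      omega
  refine ⟨fun c => if c = a then α else [], ?_, a, ha, ?_⟩
  · calc α.flatMap (fun c => if c = a then α else [])
        = (p ++ a :: q).flatMap (fun c => if c = a then α else []) := by rw [← hpq]
      _ = α := by
        rw [List.flatMap_append, List.flatMap_cons, hz α p hcp.1, hz α q hcp.2]
        simp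
  · intro h
    have h' : α = [a] := by simpa using h
    rw [h'] at h2
    simp at h2

/-- **Billaud's conjecture for words with atomic frequencies, and for words with at most three
occurrences of every letter.** -/
theorem result (α : List ℕ) (hcard : 3 ≤ α.toFinset.card)
    (hfreq : (∀ b ∈ α, ∀ s : List ℕ, (∀ a ∈ s, a ∈ α) →
        (s.map α.count).sum = α.count b → s.length ≤ 1) ∨ (∀ a ∈ α, α.count a ≤ 3))
    (hprim : ¬ ∃ σ : ℕ → List ℕ, α.flatMap σ = α ∧ ∃ x ∈ α, σ x ≠ [x]) :
    ∃ i ∈ α, ¬ ∃ σ : ℕ → List ℕ,
        (α.filter (fun y => decide (y ≠ i))).flatMap σ = α.filter (fun y => decide (y ≠ i)) ∧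
        ∃ x ∈ α.filter (fun y => decide (y ≠ i)), σ x ≠ [x] := by
  have hne : α ≠ [] := by
    rintro rfl
    simp at hcard
  refine aux α hne ?_ hprim
  rcases hfreq with h | h
  · exact h
  · intro b hb s hs hsum
    have h1 := h b hb
    have h2 : 2 * s.length ≤ (s.map α.count).sum := by
      clear hsum
      induction s with
      | nil => simp
      | cons a s ih =>
        have h2 := two_le_count α (by omega) hprim a (hs a (by simp))
        have h3 := ih (fun c hc => hs c (by simp [hc]))
        simp only [List.length_cons, List.map_cons, List.sum_cons]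
        omega
    omega

end Pool.Agent.Results.MP_c026f4_lc.AtomicFrequencies
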